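import Pool.Agent.Q206.BEC.Core
import Pool.Agent.Y656.Loc

/-!
# Off-diagonal order in dimension at least three: the final form
-/

set_option autoImplicit false

open MeasureTheory
open scoped ENNReal

namespace Pool.Agent.Q206.BEC

open Pool.Agent.W761.CB Pool.Agent.W761.CC Pool.Agent.TH268.CC Pool.Agent.Y656
open Pool.Agent.W74.CC (rep rep_mem pr_rep)

noncomputable section

/-- The main theorem. -/
theorem offS (n : ℕ) (hn : 3 ≤ n) (μ R₀ κ : ℝ) (hμ : 0 < μ)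
    (hκ : κ = 1 / (8 * (n ^ 3 + 4 * n ^ 2))) (v : ℝ → ℝ≥0∞) (hv : Measurable v)
    (hvR : ∀ r, R₀ < r → v r = 0) (hv0 : ∫⁻ z : Fin n → ℝ, v (el z) ≠ 0) :
    ∃ ρ₀ : ℝ, 0 < ρ₀ ∧ ρ₀ < 1 ∧ ∀ ρ ℓ : ℝ, 0 < ρ → ρ ≤ ρ₀ → ℓ = ρ ^ (-(1 / 2 + κ)) →
      ∀ (L : ℝ) [Fact (0 < L)], ρ ^ (-(1 / 2) : ℝ) ≤ L →
      ∀ N : ℕ, ρ / 2 * L ^ n ≤ N → (N : ℝ) ≤ ρ * L ^ n →
      ∀ Ψ : (Fin N → Tor n L) → ℂ, IsWf2 Ψ →
        (∀ Φ : (Fin N → Tor n L) → ℂ, IsWf Φ → enN (ENNReal.ofReal μ) (fun _ => 0) v Ψ ≤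
          enN (ENNReal.ofReal μ) (fun _ => 0) v Φ + ENNReal.ofReal (ρ ^ (2 + 4 * κ) * L ^ n)) →
        (∀ z : Fin n → ℝ, (∀ c, |z c| ≤ ℓ) → (1 - ρ ^ κ) * N ≤ odN Ψ z) ∧
        (∀ q : ℕ, 1 ≤ q → L / q ≤ ℓ → (1 - ρ ^ κ) * N ≤ locN q Ψ) ∧
        (L ≤ ℓ → (1 - ρ ^ κ) * N ≤ condN Ψ) := by
  obtain ⟨y₀, hy₀, hy₀1, hmain⟩ := coreS n hn μ R₀ v hμ hv hvR hv0
  obtain ⟨m, hm⟩ : ∃ m : ℕ, m = n ^ 3 + 4 * n ^ 2 := ⟨_, rfl⟩
  have hm1 : 1 ≤ m := by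
    have h1 : 1 ≤ n ^ 3 := Nat.one_le_pow _ _ (by omega)
    omega
  have hm0 : (0 : ℝ) < m := by exact_mod_cast hm1
  have hmr : (m : ℝ) = n ^ 3 + 4 * n ^ 2 := by rw [hm]; push_cast; ring
  rw [← hmr] at hκ
  have hκ0 : 0 < κ := by rw [hκ]; positivity
  rw [← hm] at hmain
  refine ⟨min (y₀ ^ (8 * m)) (1 / 2), lt_min (by positivity) (by norm_num),
    lt_of_le_of_lt (min_le_right _ _) (by norm_num), ?_⟩
  intro ρ ℓ hρ hρ1 hℓ L _ hL N hN1 hN2 Ψ hΨ hnear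
  obtain ⟨y, hy⟩ : ∃ y, y = ρ ^ κ := ⟨_, rfl⟩
  have hy0 : 0 < y := by rw [hy]; positivity
  have hym : y ^ (8 * m) = ρ := by
    rw [hy, ← Real.rpow_natCast, ← Real.rpow_mul hρ.le, hκ]
    push_cast
    rw [show 1 / (8 * (m : ℝ)) * (8 * m) = 1 by field_simp, Real.rpow_one]
  have hyy : y ≤ y₀ := by
    have h1 : y ^ (8 * m) ≤ y₀ ^ (8 * m) := by
      rw [hym]
      exact hρ1.trans (min_le_left _ _)
    exact (pow_le_pow_iff_left₀ hy0.le hy₀.le (by omega)).1 h1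
  have hρe : ρ = 1 / (1 / y ^ 4) ^ (2 * m) := by
    rw [div_pow, one_pow, one_div_one_div, ← pow_mul, show 4 * (2 * m) = 8 * m by ring, hym]
  have e0 : (1 / y ^ 4) ^ m = ρ ^ (-(1 / 2) : ℝ) := by
    have h1 : ((1 / y ^ 4) ^ m) ^ 2 = (ρ ^ (-(1 / 2) : ℝ)) ^ 2 := by
      have h2 : (ρ ^ (-(1 / 2) : ℝ)) ^ 2 = 1 / ρ := by
        rw [← Real.rpow_natCast, ← Real.rpow_mul hρ.le]
        push_cast
        rw [show -(1 / 2 : ℝ) * 2 = -1 by norm_num, Real.rpow_neg_one, one_div]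
      rw [h2, ← pow_mul, mul_comm m 2, hρe, one_div_one_div]
    exact (pow_left_inj₀ (by positivity) (by positivity) two_ne_zero).1 h1
  rw [← e0] at hL
  have e2 : ρ ^ (2 + 4 * κ) = ρ ^ 2 * y ^ 4 := by
    rw [Real.rpow_add hρ, mul_comm 4 κ, Real.rpow_mul hρ.le, ← hy,
      show (4 : ℝ) = ((4 : ℕ) : ℝ) by norm_num, Real.rpow_natCast,
      show (2 : ℝ) = ((2 : ℕ) : ℝ) by norm_num, Real.rpow_natCast]
  rw [e2] at hnear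
  have c3 := hmain y hy0 hyy ρ hρe L hL N hN1 hN2 Ψ hΨ hnear
  rw [← hy]
  have hLp : 0 < L := Fact.out
  have hℓ0 : 0 ≤ ℓ := by rw [hℓ]; positivity
  have hℓ2 : ℓ ^ 2 = 1 / ρ / y ^ 2 := by
    rw [hℓ, hy, ← Real.rpow_natCast, ← Real.rpow_natCast, ← Real.rpow_mul hρ.le,
      ← Real.rpow_mul hρ.le]
    push_cast
    rw [show -(1 / 2 + κ) * 2 = -1 - κ * 2 by ring, Real.rpow_sub hρ, Real.rpow_neg_one, one_div]
  have hsq : ∀ s : ℝ, 0 ≤ s → s ≤ ℓ → s ^ 2 ≤ 1 / ρ / y ^ 2 := fun s h1 h2 => by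
    rw [← hℓ2]; exact pow_le_pow_left₀ h1 h2 2
  have h2n0 : (1 : ℝ) ≤ 2 ^ n := one_le_pow₀ (by norm_num)
  have h2n : y * N / 2 ^ n ≤ y * N := div_le_self (by positivity) h2n0
  refine ⟨?_, ?_, ?_⟩
  · intro z hz
    have h2 := od_of_Dn hΨ (δ := y * N / 2 ^ n) (by positivity)
      (c3 ℓ hℓ0 (hsq ℓ hℓ0 le_rfl) z hz)
    linarith
  · intro q hq hLq
    have h2 := loc_of_Dn hΨ hq (δ := y * N / 2 ^ n) (by positivity)
      (fun w hw => c3 (L / q) (by positivity) (hsq _ (by positivity) hLq) w hw)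
    have h3 : (2 : ℝ) ^ n * (y * N / 2 ^ n) = y * N := by field_simp
    rw [h3] at h2
    linarith
  · intro hLs
    have h2 := cond_of_Dn hΨ (δ := y * N / 2 ^ n) (by positivity) (fun h => by
      have h3 := c3 (L / 2) (by positivity) (hsq _ (by positivity) (by linarith)) (rep h)
        (fun c => by
        have h4 := rep_mem h c
        rw [abs_le]
        exact ⟨by linarith [h4.1], h4.2⟩)
      rw [pr_rep] at h3
      exact h3)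
    linarith

end

end Pool.Agent.Q206.BEC
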