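import Pool.Agent.Y656.UpL
import Pool.Agent.Y656.BddQ
import Pool.Agent.Y656.ParL
import Pool.Agent.Y656.CapR
import Pool.Agent.Y656.Main4
import Pool.Agent.Y656.NS5
import Pool.Agent.W761.CC.All

/-!
# Off-diagonal order in dimension at least three: the main theorem
-/

set_option autoImplicit false

open MeasureTheory
open scoped ENNReal

namespace Pool.Agent.Q206.BEC

open Pool.Agent.W761.CB Pool.Agent.W761.CC Pool.Agent.TH268.CC Pool.Agent.Y656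

noncomputable section

lemma fs_dn {n : ℕ} {S C₁ y ν ρ V R s μ x : ℝ} (hS : 0 < S) (hC₁ : 0 < C₁) (hy : 0 < y)
    (hy1 : y ≤ 1) (hμ : 0 < μ) (hV : 0 < V) (hν : 0 < ν) (hνρ : ν ≤ ρ) (hs : s ^ 2 ≤ 1 / ρ / y ^ 2)
    (hx : x = 1 / y ^ 4) (hR : R ^ 2 * ν ≤ 1 / x ^ 2)
    (h : (2 * n * C₁ * S + 16 * n * S) * 2 ^ n * y ≤ 2 * μ) :
    (2 * n * s ^ 2 * (C₁ / x * (S * (ν ^ 2 * V))) +
      8 * n * R ^ 2 * (2 * (S * (ν ^ 2 * V)))) / μ ≤ 2 * (y * (ν * V) / 2 ^ n) := by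
  have hρ : 0 < ρ := by linarith
  have hN : 0 < ν * V := by positivity
  rw [div_le_iff₀ hμ]
  have h1 : s ^ 2 * ν ≤ 1 / y ^ 2 := by
    calc s ^ 2 * ν ≤ 1 / ρ / y ^ 2 * ρ := mul_le_mul hs hνρ hν.le (by positivity)
      _ = 1 / y ^ 2 := by field_simp
  have h4 : 2 * n * s ^ 2 * (C₁ / x * (S * (ν ^ 2 * V))) ≤ 2 * n * C₁ * S * y ^ 2 * (ν * V) := by
    calc 2 * n * s ^ 2 * (C₁ / x * (S * (ν ^ 2 * V))) =
          2 * n * C₁ * S * y ^ 4 * (ν * V) * (s ^ 2 * ν) := by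
          rw [hx]
          field_simp
      _ ≤ 2 * n * C₁ * S * y ^ 4 * (ν * V) * (1 / y ^ 2) :=
          mul_le_mul_of_nonneg_left h1 (by positivity)
      _ = _ := by field_simp
  have h3 : R ^ 2 * ν ≤ y ^ 2 := by
    refine hR.trans ?_
    rw [hx, div_pow, one_pow, one_div_one_div, ← pow_mul]
    exact pow_le_pow_of_le_one hy.le hy1 (by norm_num)
  have h5 : 8 * n * R ^ 2 * (2 * (S * (ν ^ 2 * V))) ≤ 16 * n * S * y ^ 2 * (ν * V) := by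
    calc 8 * n * R ^ 2 * (2 * (S * (ν ^ 2 * V))) = 16 * n * S * (ν * V) * (R ^ 2 * ν) := by
          ring
      _ ≤ 16 * n * S * (ν * V) * y ^ 2 := mul_le_mul_of_nonneg_left h3 (by positivity)
      _ = _ := by ring
  have h2n : (0 : ℝ) < 2 ^ n := by positivity
  have h6 : (2 * n * C₁ * S + 16 * n * S) * y ^ 2 * (ν * V) ≤ 2 * (y * (ν * V) / 2 ^ n) * μ := by
    have e1 : 2 * (y * (ν * V) / 2 ^ n) * μ = (2 * μ) * (y * (ν * V) / 2 ^ n) := by ring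
    have e2 : (2 * n * C₁ * S + 16 * n * S) * y ^ 2 * (ν * V) =
        ((2 * n * C₁ * S + 16 * n * S) * 2 ^ n * y) * (y * (ν * V) / 2 ^ n) := by
      field_simp
    rw [e1, e2]
    exact mul_le_mul_of_nonneg_right h (by positivity)
  refine le_trans (add_le_add h4 h5) (le_trans (le_of_eq ?_) h6)
  ring

/-- The main theorem in dimension `n ≥ 3`. -/
theorem coreS (n : ℕ) (hn : 3 ≤ n) (μ R₀ : ℝ) (v : ℝ → ℝ≥0∞) (hμ : 0 < μ) (hv : Measurable v)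
    (hvR : ∀ r, R₀ < r → v r = 0) (hv0 : ∫⁻ z : Fin n → ℝ, v (el z) ≠ 0) :
    ∃ y₀ : ℝ, 0 < y₀ ∧ y₀ ≤ 1 ∧ ∀ y : ℝ, 0 < y → y ≤ y₀ → ∀ ρ : ℝ,
      ρ = 1 / (1 / y ^ 4) ^ (2 * (n ^ 3 + 4 * n ^ 2)) →
      ∀ (L : ℝ) [Fact (0 < L)], (1 / y ^ 4) ^ (n ^ 3 + 4 * n ^ 2) ≤ L →
      ∀ N : ℕ, ρ / 2 * L ^ n ≤ N → (N : ℝ) ≤ ρ * L ^ n →
      ∀ Ψ : (Fin N → Tor n L) → ℂ, IsWf2 Ψ →
        (∀ Φ : (Fin N → Tor n L) → ℂ, IsWf Φ → enN (ENNReal.ofReal μ) (fun _ => 0) v Ψ ≤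
          enN (ENNReal.ofReal μ) (fun _ => 0) v Φ +
            ENNReal.ofReal (ρ ^ 2 * y ^ 4 * L ^ n)) →
        ∀ s : ℝ, 0 ≤ s → s ^ 2 ≤ 1 / ρ / y ^ 2 → ∀ w ∈ cube n s,
          Dn Ψ (pr L w) ≤ ENNReal.ofReal (2 * (y * N / 2 ^ n)) := by
  have hTF := Pool.Agent.W135.CB.proof_tf
  have hFIB := Pool.Agent.W131.CB.fib
  have hPO2 := Pool.Agent.W880.CB.po2 hFIB
  have hBLK := Pool.Agent.W374.CB2.Blk.blk hTF
  have hLA1 := Pool.Agent.W372.CB.main hTF hBLK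
  have hLA := Pool.Agent.W571.CB.La.proof_la hTF hBLK hLA1 hFIB
  have hKQ := Pool.Agent.W214.CC.main
  have hPOIC := Pool.Agent.W975.CC.main
  have hONE := Pool.Agent.W366.CC.One.one
  have hCRD := Pool.Agent.W688.CC.crd hBLK
  have hn1 : 1 ≤ n := by omega
  have hn3 : (3 : ℝ) ≤ n := by exact_mod_cast hn
  have hvt0 : ∫⁻ z in {z : Fin n → ℝ | R₀ < el z}, v (el z) = 0 := by
    rw [setLIntegral_congr_fun (g := fun _ => 0)
      (measurableSet_lt measurable_const Pool.Agent.W612.CC.el_meas) fun z hz => hvR _ hz]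
    simp
  have hvt : ∫⁻ z in {z : Fin n → ℝ | R₀ < el z}, v (el z) ≠ ⊤ := by
    rw [hvt0]
    exact ENNReal.zero_ne_top
  have hG0 : 0 < scat n μ v := gposH μ R₀ v hn hμ hv hv0 hvt
  obtain ⟨Cc, hCc, hcapR⟩ := capR hKQ hPOIC μ R₀ v hn hμ hv hvR hG0
  obtain ⟨x₁, hx₁, hupL⟩ := upL n μ R₀ v hn hμ hv hvR hG0
  obtain ⟨S, hS⟩ : ∃ S : ℝ, S = scat n μ v / 2 := ⟨_, rfl⟩
  have hS0 : 0 < S := by rw [hS]; linarith
  rw [← hS] at hcapR hupL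
  obtain ⟨CP, hCPd⟩ : ∃ CP : ℝ, CP = n * 2 ^ n / μ := ⟨_, rfl⟩
  have hCP : 0 < CP := by rw [hCPd]; positivity
  obtain ⟨CA, b₀, hCA, hb₀, hla⟩ := hLA n 2 CP v hn1 two_pos (by linarith) hCP.le hv hv0
  obtain ⟨D₀, x₀, hD₀, hx₀, hpar⟩ := parL n hn S μ CP CA b₀ Cc hS0 hμ hCP.le hCA
  obtain ⟨D, hD⟩ : ∃ D : ℝ, D = D₀ * (1 + 1 / S) := ⟨_, rfl⟩
  have hS1 : 0 < 1 / S := by positivity
  have hD1 : 1 ≤ D := by
    rw [hD]
    exact one_le_mul_of_one_le_of_one_le hD₀ (by linarith)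
  have hDD : D₀ ≤ D := by
    rw [hD]
    exact le_mul_of_one_le_right (by linarith) (by linarith)
  have hDS : D₀ ≤ D * S := by
    have e1 : D * S = D₀ * S + D₀ := by rw [hD]; field_simp
    rw [e1]
    have : 0 ≤ D₀ * S := by positivity
    linarith
  obtain ⟨c, hc⟩ : ∃ c : ℝ, c = 2 + 4 / S := ⟨_, rfl⟩
  have hc0 : 0 < c := by rw [hc]; positivity
  obtain ⟨C₁, hC₁⟩ : ∃ C₁, C₁ = c + 4 + 6 * D := ⟨_, rfl⟩
  have hC₁0 : 0 < C₁ := by rw [hC₁]; positivity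
  obtain ⟨Q, hQ⟩ : ∃ Q, Q = (2 * n * C₁ * S + 16 * n * S) * 2 ^ n := ⟨_, rfl⟩
  have hn0 : (0 : ℝ) < n := by linarith
  have hQ0 : 0 < Q := by rw [hQ]; positivity
  obtain ⟨X, hX⟩ : ∃ X, X = x₀ + x₁ + c := ⟨_, rfl⟩
  have hX2 : 2 ≤ X := by rw [hX]; linarith
  obtain ⟨y₀, hy₀⟩ : ∃ y₀, y₀ = min (1 / X) (2 * μ / Q) := ⟨_, rfl⟩
  have hy₀0 : 0 < y₀ := by rw [hy₀]; positivity
  have a1 : y₀ ≤ 1 / X := by rw [hy₀]; exact min_le_left _ _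
  have a3 : y₀ ≤ 2 * μ / Q := by rw [hy₀]; exact min_le_right _ _
  have hy₀1 : y₀ ≤ 1 := by
    refine a1.trans ?_
    rw [div_le_one (by linarith)]
    linarith
  refine ⟨y₀, hy₀0, hy₀1, ?_⟩
  intro y hy hyy ρ hρ L _ hL N hN1 hN2 Ψ hΨ hnear
  have hy1 : y ≤ 1 := hyy.trans hy₀1
  have b1 : X ≤ 1 / y := by
    rw [le_div_iff₀ hy]
    have := hyy.trans a1
    rw [le_div_iff₀ (by linarith)] at this
    linarith
  have b3 : Q * y ≤ 2 * μ := by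
    have := hyy.trans a3
    rw [le_div_iff₀ hQ0] at this
    linarith
  obtain ⟨x, hx⟩ : ∃ x, x = 1 / y ^ 4 := ⟨_, rfl⟩
  rw [← hx] at hρ hL
  have hxy : 1 / y ≤ x := by
    rw [hx]
    apply one_div_le_one_div_of_le (by positivity)
    exact pow_le_of_le_one hy.le hy1 (by norm_num)
  have hxX : X ≤ x := b1.trans hxy
  rw [hX] at hxX
  have hxx₀ : x₀ ≤ x := by linarith
  have hxx₁ : x₁ ≤ x := by linarith
  have hxc : c ≤ x := by linarith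
  have hx2 : 2 ≤ x := by linarith
  have hx1 : 1 < x := by linarith
  have hx0 : 0 < x := by linarith
  clear hxX b1
  have hρ0 : 0 < ρ := by rw [hρ]; positivity
  have hLp : 0 < L := Fact.out
  have hLn : 0 < L ^ n := by positivity
  obtain ⟨ν, hν⟩ : ∃ ν : ℝ, ν = N / L ^ n := ⟨_, rfl⟩
  have hν1 : ρ / 2 ≤ ν := by rw [hν, le_div_iff₀ hLn]; exact hN1
  have hν2 : ν ≤ ρ := by rw [hν, div_le_iff₀ hLn]; exact hN2
  have hν0 : 0 < ν := by linarith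
  have hNν : (N : ℝ) = ν * L ^ n := by rw [hν]; field_simp
  have hνa : 1 / 2 / x ^ (2 * (n ^ 3 + 4 * n ^ 2)) ≤ ν := by
    refine le_trans (le_of_eq ?_) hν1
    rw [hρ]
    ring
  have hνb : ν ≤ 1 / x ^ (2 * (n ^ 3 + 4 * n ^ 2)) := by
    rw [← hρ]; exact hν2
  have hup := hupL x hxx₁ L N ν hL hν hνa hνb
  obtain ⟨q, M, b, b₁, r, r₀, R, hq, hq8, hM, hLb, hbb, hb₁0, hb₀b, hb1, h4r, hrR, hR1,
    hr₀r, hr₀0, hcr, hRν, hpars⟩ := hpar x hxx₀ L ν hL hνa hνb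
  have hux0 : 0 < 1 / x := by positivity
  have hux1 : 1 / x ≤ 1 := by rw [div_le_one hx0]; exact hx1.le
  have hcap' : Cap n μ v (S * (1 - 1 / x)) r₀ := by
    refine hcapR (1 / x) hux0 hux1 r₀ (le_trans (le_of_eq ?_) hcr)
    field_simp
  have hPO0 : PO n L 2 CP (ENNReal.ofReal μ) (fun _ => 0) := by
    rw [hCPd]; exact Pool.Agent.W753.CB.main n L μ _ hμ
  have hLq : L = ((q * M : ℕ) : ℝ) * b₁ := by
    push_cast
    rw [hLb, hbb]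
    ring
  obtain ⟨P, hP⟩ : ∃ P, P = ν ^ 2 * L ^ n := ⟨_, rfl⟩
  have hP0 : 0 < P := by rw [hP]; positivity
  have hSP : 0 < S * P := by positivity
  have hK : Measurable (fun _ : Fin n → ℝ => (0 : ℝ≥0∞)) := measurable_const
  have hcx : c / x ≤ 1 := by rw [div_le_one hx0]; exact hxc
  have hDx : D₀ / x ≤ D / x := div_le_div_of_nonneg_right hDD hx0.le
  have hDPx : ∀ P' : ℝ, 0 ≤ P' → D₀ / x * P' ≤ D / x * (S * P') := by
    intro P' hP'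
    have e1 : D / x * (S * P') = D * S / x * P' := by ring
    rw [e1]
    exact mul_le_mul_of_nonneg_right (div_le_div_of_nonneg_right hDS hx0.le) hP'
  have hpars' : ∀ γ₀ : ℝ, 0 < γ₀ → γ₀ ≤ S →
          γ₀ * (5 * (2 * M ^ n) ^ 2 / b ^ n + 2 * M ^ n / (1 / x * (2 * r₀) ^ n)) *
            (CP * b ^ 2) ≤ D / x ∧
          4 * γ₀ * ν * (CA * b₁ ^ n) ≤ D / x ∧
          γ₀ * (L ^ n / b ^ n) * (2 * M ^ n / b ^ n + (2 * M ^ n) ^ 2 / b ^ n *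
            (4 * n * r / b + 2 * (2 * M ^ n) * (4 * r / b) ^ n)) ≤
            D / x * (S * (ν ^ 2 * L ^ n)) ∧
          (1 + 1 / (1 / x)) * μ * (2 * n * ((60 * r₀ / r) ^ n / R ^ 2)) * (ν * L ^ n) ≤
            D / x * (S * (ν ^ 2 * L ^ n)) := by
    intro γ₀ h1 h2
    obtain ⟨p1, p2, p3, p4⟩ := hpars γ₀ h1 h2
    have hPn : 0 ≤ ν ^ 2 * L ^ n := by positivity
    exact ⟨p1.trans hDx, p2.trans hDx, p3.trans (hDPx _ hPn), p4.trans (hDPx _ hPn)⟩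
  -- bounded wave functions
  have bdd := fun (Φ : (Fin N → Tor n L) → ℂ) (hΦ : IsWf Φ) (E : ℝ) (hE0 : 0 ≤ E)
      (hEe : enN (ENNReal.ofReal μ) (fun _ => 0) v Φ = ENNReal.ofReal E)
      (hE : E ≤ (1 + c / x) * (S * (ν ^ 2 * L ^ n))) =>
    bddQ hKQ hONE hPO2 hTF hBLK hCRD (D := D) (c := c) (CA := CA) hμ hv hS0 hx1
      hcap' hPO0 hCP.le hCA hr₀0
      hr₀r hrR hR1 h4r hb1 hq hM hLb hbb hb₁0 hν0
      (fun F hF => (hla L b₁ (q * M) (ENNReal.ofReal μ) (fun _ => 0) hb₀b hLq hq8 hK hPO0 F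
        hF).1)
      hD1 hc0.le hcx hpars' hNν hΦ hE0 hEe hE
  rw [← hC₁] at bdd
  -- the energy of the given wave function
  have hΨe : enN (ENNReal.ofReal μ) (fun _ => 0) v Ψ ≤
      ENNReal.ofReal ((1 + (1 + 4 / S) / x) * (S * P)) := by
    have h1 := near_ee hK hv ENNReal.ofReal_ne_top hnear
    refine h1.trans ((add_le_add hup le_rfl).trans ?_)
    rw [← ENNReal.ofReal_add (by positivity) (by positivity)]
    apply ENNReal.ofReal_le_ofReal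
    have h2' : ρ ^ 2 ≤ (2 * ν) ^ 2 := pow_le_pow_left₀ hρ0.le (by linarith only [hν1]) 2
    have h2 : ρ ^ 2 ≤ 4 * ν ^ 2 := by rw [mul_pow] at h2'; linarith only [h2']
    have h3 : ρ ^ 2 * y ^ 4 * L ^ n ≤ 4 * ν ^ 2 * y ^ 4 * L ^ n := by gcongr
    rw [hP]
    calc S * ν ^ 2 * (1 + 1 / x) * L ^ n + ρ ^ 2 * y ^ 4 * L ^ n ≤
          S * ν ^ 2 * (1 + 1 / x) * L ^ n + 4 * ν ^ 2 * y ^ 4 * L ^ n :=
          add_le_add le_rfl h3
      _ = _ := by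
          rw [hx]
          field_simp
          ring
  have hfinite : enN (ENNReal.ofReal μ) (fun _ => 0) v Ψ ≠ ⊤ :=
    ne_top_of_le_ne_top ENNReal.ofReal_ne_top hΨe
  intro s hs hs1 w hw
  obtain ⟨δ, hδ⟩ : ∃ δ : ℝ, δ = 1 / x * (S * P) := ⟨_, rfl⟩
  have hδ0 : 0 < δ := by rw [hδ]; positivity
  refine trunc3 (ε := δ) hδ0 hΨ hfinite (pr L w) fun Ψ' hΨ' hΨe' => ?_
  have h1 : enN (ENNReal.ofReal μ) (fun _ => 0) v Ψ' ≤
      ENNReal.ofReal ((1 + c / x) * (S * (ν ^ 2 * L ^ n))) := by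
    refine hΨe'.trans ((add_le_add hΨe le_rfl).trans ?_)
    rw [← ENNReal.ofReal_add (by positivity) hδ0.le]
    apply ENNReal.ofReal_le_ofReal
    rw [← hP, hδ, hc]
    apply le_of_eq
    ring
  have h2 : enN (ENNReal.ofReal μ) (fun _ => 0) v Ψ' ≠ ⊤ :=
    ne_top_of_le_ne_top ENNReal.ofReal_ne_top h1
  refine (bdd Ψ' hΨ' _ ENNReal.toReal_nonneg (ENNReal.ofReal_toReal h2).symm
    (ENNReal.toReal_le_of_le_ofReal (by positivity) h1) s w hs hw).trans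
    (ENNReal.ofReal_le_ofReal ?_)
  rw [hNν]
  exact fs_dn hS0 hC₁0 hy hy1 hμ hLn hν0 hν2 hs1 hx hRν (by rw [← hQ]; exact b3)

end

end Pool.Agent.Q206.BEC
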